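import Mathlib
import Pool.Agent.Helper34.PM.Defs

/-!
# A transcendence measure of pi, block G: the auxiliary function
-/

set_option autoImplicit false

namespace Pool.Agent.Helper80.PM

open Polynomial Finset Pool.Agent.PM

theorem FF_diff (M L : ℕ) (v : ℕ → ℕ → ℤ[X]) : Differentiable ℂ (FF M L v) := by
  unfold FF
  refine Differentiable.fun_sum fun i _ => ?_
  exact (Polynomial.differentiable _).mul (differentiable_id.const_mul _).cexp

theorem Dl_succ (l : ℂ) (t : ℕ) (g : ℂ[X]) : Dl l (t + 1) g = derivative (Dl l t g) + C l * Dl l t g := by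
  unfold Dl
  rw [Function.iterate_succ_apply']

theorem FF_iter (M L : ℕ) (v : ℕ → ℕ → ℤ[X]) (t : ℕ) (w : ℂ) :
    iteratedDeriv t (FF M L v) w = ∑ i ∈ ix L,
      (Dl (lam i) t (gg M v (Real.pi : ℂ) i.1)).eval w * Complex.exp (lam i * w) := by
  induction t generalizing w with
  | zero =>
    rw [iteratedDeriv_zero]
    rfl
  | succ t ih =>
    have h0 : iteratedDeriv t (FF M L v) = fun w => ∑ i ∈ ix L,
        (Dl (lam i) t (gg M v (Real.pi : ℂ) i.1)).eval w * Complex.exp (lam i * w) := funext ih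
    rw [iteratedDeriv_succ, h0]
    have h1 : ∀ i ∈ ix L, HasDerivAt (fun w : ℂ => (Dl (lam i) t (gg M v (Real.pi : ℂ) i.1)).eval w * Complex.exp (lam i * w))
        ((Dl (lam i) (t + 1) (gg M v (Real.pi : ℂ) i.1)).eval w * Complex.exp (lam i * w)) w := by
      intro i _
      have h2 : HasDerivAt (fun w : ℂ => Complex.exp (lam i * w)) (Complex.exp (lam i * w) * lam i) w := by
        have h3 : HasDerivAt (fun w : ℂ => lam i * w) (lam i) w := by
          simpa using (hasDerivAt_id w).const_mul (lam i)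
        exact h3.cexp
      have h4 := ((Dl (lam i) t (gg M v (Real.pi : ℂ) i.1)).hasDerivAt w).mul h2
      refine h4.congr_deriv ?_
      rw [Dl_succ, eval_add, eval_mul, eval_C]
      ring
    exact (HasDerivAt.fun_sum h1).deriv

theorem aeval_pi_le (P : ℤ[X]) {K : ℕ} {H : ℝ} (hd : P.natDegree < K) (hH : ∀ i, |(P.coeff i : ℝ)| ≤ H) :
    ‖aeval (Real.pi : ℂ) P‖ ≤ K * 4 ^ K * H := by
  have hH0 : 0 ≤ H := (abs_nonneg _).trans (hH 0)
  rw [aeval_eq_sum_range' hd]
  refine (norm_sum_le _ _).trans ?_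
  have h1 : ∀ i ∈ range K, ‖P.coeff i • (Real.pi : ℂ) ^ i‖ ≤ 4 ^ K * H := by
    intro i hi
    rw [zsmul_eq_mul, norm_mul, Complex.norm_intCast, norm_pow, Complex.norm_real, Real.norm_eq_abs,
      abs_of_pos Real.pi_pos]
    have h2 : Real.pi ^ i ≤ 4 ^ K := by
      calc Real.pi ^ i ≤ 4 ^ i := pow_le_pow_left₀ Real.pi_pos.le Real.pi_le_four _
        _ ≤ 4 ^ K := pow_le_pow_right₀ (by norm_num) (Finset.mem_range.1 hi).le
    calc |(P.coeff i : ℝ)| * Real.pi ^ i ≤ H * 4 ^ K :=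
          mul_le_mul (hH i) h2 (pow_nonneg Real.pi_pos.le _) hH0
      _ = 4 ^ K * H := by ring
  refine (Finset.sum_le_sum h1).trans (le_of_eq ?_)
  rw [Finset.sum_const, Finset.card_range, nsmul_eq_mul]
  ring

theorem norm_lam (i : ℕ × Bool) : ‖lam i‖ = 2 * ((i.1 : ℝ) + 1) := by
  unfold lam
  rw [norm_mul, norm_mul, Complex.norm_I, mul_one]
  have h1 : ‖(if i.2 then (1 : ℂ) else -1)‖ = 1 := by
    split_ifs
    · exact norm_one
    · rw [norm_neg, norm_one]
  rw [h1, one_mul]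
  have h2 : (2 * ((i.1 : ℂ) + 1)) = ((2 * ((i.1 : ℝ) + 1) : ℝ) : ℂ) := by push_cast; ring
  rw [h2, Complex.norm_real, Real.norm_eq_abs, abs_of_nonneg (by positivity)]

theorem FF_le (M L : ℕ) (v : ℕ → ℕ → ℤ[X]) {K : ℕ} {H R : ℝ}
    (hd : ∀ a b, (v a b).natDegree < K) (hH : ∀ a b i, |((v a b).coeff i : ℝ)| ≤ H)
    (hR : 1 ≤ R) (w : ℂ) (hw : ‖w‖ ≤ R) :
    ‖FF M L v w‖ ≤ 2 * L * M * (K * 4 ^ K * H) * R ^ M * Real.exp (2 * L * R) := by
  have hH0 : 0 ≤ H := (abs_nonneg _).trans (hH 0 0 0)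
  set Y : ℝ := K * 4 ^ K * H with hY
  have hY0 : 0 ≤ Y := by positivity
  have hR0 : 0 ≤ R := by linarith
  unfold FF
  refine (norm_sum_le _ _).trans ?_
  have h1 : ∀ i ∈ ix L, ‖(gg M v (Real.pi : ℂ) i.1).eval w * Complex.exp (lam i * w)‖ ≤
      (M * (Y * R ^ M)) * Real.exp (2 * L * R) := by
    intro i hi
    have hiL : i.1 + 1 ≤ L := by
      unfold ix at hi
      exact Finset.mem_range.1 (Finset.mem_product.1 hi).1
    rw [norm_mul]
    refine mul_le_mul ?_ ?_ (norm_nonneg _) (by positivity)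
    · unfold gg
      rw [eval_finsetSum]
      refine (norm_sum_le _ _).trans ?_
      have h2 : ∀ a ∈ range M, ‖(C (aeval (Real.pi : ℂ) (v a i.1)) * X ^ a : ℂ[X]).eval w‖ ≤ Y * R ^ M := by
        intro a ha
        rw [eval_mul, eval_C, eval_pow, eval_X, norm_mul, norm_pow]
        refine mul_le_mul (aeval_pi_le _ (hd a i.1) (hH a i.1)) ?_ (pow_nonneg (norm_nonneg _) _) hY0
        calc ‖w‖ ^ a ≤ R ^ a := pow_le_pow_left₀ (norm_nonneg _) hw _
          _ ≤ R ^ M := pow_le_pow_right₀ hR (Finset.mem_range.1 ha).le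
      refine (Finset.sum_le_sum h2).trans (le_of_eq ?_)
      rw [Finset.sum_const, Finset.card_range, nsmul_eq_mul]
    · rw [Complex.norm_exp]
      refine Real.exp_le_exp.2 ?_
      calc (lam i * w).re ≤ ‖lam i * w‖ := Complex.re_le_norm _
        _ = ‖lam i‖ * ‖w‖ := norm_mul _ _
        _ ≤ (2 * L) * R := by
          refine mul_le_mul ?_ hw (norm_nonneg _) (by positivity)
          rw [norm_lam]
          have : (i.1 : ℝ) + 1 ≤ L := by exact_mod_cast hiL
          linarith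
        _ = 2 * L * R := rfl
  refine (Finset.sum_le_sum h1).trans (le_of_eq ?_)
  rw [Finset.sum_const, nsmul_eq_mul]
  have h3 : ((ix L).card : ℝ) = 2 * L := by
    unfold ix
    rw [Finset.card_product, Finset.card_range]
    simp
    ring
  rw [h3]
  ring

end Pool.Agent.Helper80.PM
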